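import Mathlib

/-!
Actions of abelian groups on compact Hausdorff spaces: orbit closures, minimal points,
factor maps and idempotents.
-/

namespace Pool.Agent.Lib.MP_76db73_an

open Set Topology

/-- An action of an abelian group by continuous maps. -/
structure Act (G Z : Type*) [AddCommGroup G] [TopologicalSpace Z] where
  f : G → Z → Z
  cont : ∀ g, Continuous (f g)
  zero : ∀ z, f 0 z = z
  add : ∀ g h z, f (g + h) z = f g (f h z)

namespace Act

variable {G Z W : Type*} [AddCommGroup G] [TopologicalSpace Z] [TopologicalSpace W]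

/-- Orbit closure. -/
def orb (A : Act G Z) (z : Z) : Set Z := closure (range fun g => A.f g z)

/-- Invariant set. -/
def Inv (A : Act G Z) (s : Set Z) : Prop := ∀ g, ∀ z ∈ s, A.f g z ∈ s

/-- Minimal point. -/
def MinPt (A : Act G Z) (z : Z) : Prop := ∀ w ∈ A.orb z, z ∈ A.orb w

/-- Equivariant continuous map. -/
def Hom (A : Act G Z) (B : Act G W) (ρ : Z → W) : Prop :=
  Continuous ρ ∧ ∀ g z, ρ (A.f g z) = B.f g (ρ z)

theorem isClosed_orb (A : Act G Z) (z : Z) : IsClosed (A.orb z) := isClosed_closure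

theorem f_mem_orb (A : Act G Z) (g : G) (z : Z) : A.f g z ∈ A.orb z :=
  subset_closure ⟨g, rfl⟩

theorem self_mem_orb (A : Act G Z) (z : Z) : z ∈ A.orb z := by
  have := A.f_mem_orb 0 z
  rwa [A.zero] at this

theorem inv_closure (A : Act G Z) {s : Set Z} (hs : A.Inv s) : A.Inv (closure s) := by
  intro g z hz
  exact map_mem_closure (A.cont g) hz (hs g)

theorem inv_orb (A : Act G Z) (z : Z) : A.Inv (A.orb z) := by
  apply A.inv_closure
  rintro g _ ⟨h, rfl⟩
  exact ⟨g + h, A.add g h z⟩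

theorem orb_subset (A : Act G Z) {s : Set Z} (hc : IsClosed s) (hs : A.Inv s) {z : Z}
    (hz : z ∈ s) : A.orb z ⊆ s := by
  apply closure_minimal _ hc
  rintro _ ⟨g, rfl⟩
  exact hs g z hz

theorem orb_subset_orb (A : Act G Z) {z w : Z} (hw : w ∈ A.orb z) : A.orb w ⊆ A.orb z :=
  A.orb_subset (A.isClosed_orb z) (A.inv_orb z) hw

theorem MinPt.of_mem {A : Act G Z} {z w : Z} (hz : A.MinPt z) (hw : w ∈ A.orb z) :
    A.MinPt w := by
  intro v hv
  exact A.orb_subset_orb (hz v (A.orb_subset_orb hw hv)) hw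

theorem MinPt.orb_eq {A : Act G Z} {z w : Z} (hz : A.MinPt z) (hw : w ∈ A.orb z) :
    A.orb w = A.orb z :=
  Subset.antisymm (A.orb_subset_orb hw) (A.orb_subset_orb (hz w hw))

theorem exists_minPt [CompactSpace Z] (A : Act G Z) (z : Z) : ∃ w ∈ A.orb z, A.MinPt w := by
  let S : Set (Set Z) := {s | IsClosed s ∧ s.Nonempty ∧ A.Inv s}
  obtain ⟨m, hm, hmin⟩ : ∃ m, m ⊆ A.orb z ∧ Minimal (· ∈ S) m := by
    apply zorn_superset_nonempty S
    · intro c hcs hc hne
      refine ⟨⋂₀ c, ⟨isClosed_sInter fun t ht => (hcs ht).1, ?_, ?_⟩,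
        fun s hs => sInter_subset_of_mem hs⟩
      · have : Nonempty c := hne.coe_sort
        rw [sInter_eq_iInter]
        apply IsCompact.nonempty_iInter_of_directed_nonempty_isCompact_isClosed
        · exact DirectedOn.directed_val (IsChain.directedOn hc.symm)
        · exact fun i => (hcs i.prop).2.1
        · exact fun i => (hcs i.prop).1.isCompact
        · exact fun i => (hcs i.prop).1
      · intro g w hw t ht
        exact (hcs ht).2.2 g w (hw t ht)
    · exact ⟨A.isClosed_orb z, ⟨z, A.self_mem_orb z⟩, A.inv_orb z⟩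
  obtain ⟨hc, ⟨w, hw⟩, hi⟩ := hmin.prop
  refine ⟨w, hm hw, fun v hv => ?_⟩
  have h1 : A.orb v ⊆ m := A.orb_subset hc hi (A.orb_subset hc hi hw hv)
  have h2 : m ⊆ A.orb v :=
    hmin.le_of_le (y := A.orb v) ⟨A.isClosed_orb v, ⟨v, A.self_mem_orb v⟩, A.inv_orb v⟩ h1
  exact h2 hw

theorem Hom.mem_orb {A : Act G Z} {B : Act G W} {ρ : Z → W} (h : A.Hom B ρ) {z w : Z}
    (hw : w ∈ A.orb z) : ρ w ∈ B.orb (ρ z) := by
  apply map_mem_closure h.1 hw
  rintro _ ⟨g, rfl⟩
  exact ⟨g, (h.2 g z).symm⟩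

theorem Hom.exists_of_mem_orb [CompactSpace Z] [T2Space W] {A : Act G Z} {B : Act G W}
    {ρ : Z → W} (h : A.Hom B ρ) {z : Z} {v : W} (hv : v ∈ B.orb (ρ z)) :
    ∃ w ∈ A.orb z, ρ w = v := by
  have hc : IsClosed (ρ '' A.orb z) := ((A.isClosed_orb z).isCompact.image h.1).isClosed
  have : B.orb (ρ z) ⊆ ρ '' A.orb z := by
    apply B.orb_subset hc
    · rintro g _ ⟨w, hw, rfl⟩
      exact ⟨A.f g w, A.inv_orb z g w hw, h.2 g w⟩
    · exact ⟨z, A.self_mem_orb z, rfl⟩
  exact this hv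

theorem Hom.minPt [CompactSpace Z] [T2Space W] {A : Act G Z} {B : Act G W}
    {ρ : Z → W} (h : A.Hom B ρ) {z : Z} (hz : A.MinPt z) : B.MinPt (ρ z) := by
  intro v hv
  obtain ⟨w, hw, rfl⟩ := h.exists_of_mem_orb hv
  exact h.mem_orb (hz w hw)

/-- Lifting a minimal point inside an orbit closure. -/
theorem Hom.exists_lift [CompactSpace Z] [T2Space W] {A : Act G Z} {B : Act G W}
    {ρ : Z → W} (h : A.Hom B ρ) {z : Z} (hz : B.MinPt (ρ z)) :
    ∃ w ∈ A.orb z, A.MinPt w ∧ ρ w = ρ z := by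
  obtain ⟨w0, hw0, hm⟩ := A.exists_minPt z
  obtain ⟨w, hw, he⟩ := h.exists_of_mem_orb (hz _ (h.mem_orb hw0))
  exact ⟨w, A.orb_subset_orb hw0 hw, hm.of_mem hw, he⟩

/-- The pointwise action on functions. -/
def pi (A : Act G Z) (κ : Type*) : Act G (κ → Z) where
  f g p := fun k => A.f g (p k)
  cont g := continuous_pi fun k => (A.cont g).comp (continuous_apply k)
  zero p := funext fun k => A.zero (p k)
  add g h p := funext fun k => A.add g h (p k)

/-- The diagonal action on pairs. -/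
def pair (A : Act G Z) : Act G (Z × Z) where
  f g p := (A.f g p.1, A.f g p.2)
  cont g := ((A.cont g).comp continuous_fst).prodMk ((A.cont g).comp continuous_snd)
  zero p := Prod.ext (A.zero p.1) (A.zero p.2)
  add g h p := Prod.ext (A.add g h p.1) (A.add g h p.2)

theorem hom_fst (A : Act G Z) : A.pair.Hom A Prod.fst := ⟨continuous_fst, fun _ _ => rfl⟩

theorem hom_snd (A : Act G Z) : A.pair.Hom A Prod.snd := ⟨continuous_snd, fun _ _ => rfl⟩

/-- The enveloping semigroup. -/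
def ellis (A : Act G Z) : Set (Z → Z) := (A.pi Z).orb id

theorem hom_ev (A : Act G Z) (z : Z) : (A.pi Z).Hom A (fun p => p z) :=
  ⟨continuous_apply z, fun _ _ => rfl⟩

theorem hom_ev₂ (A : Act G Z) (z z' : Z) : (A.pi Z).Hom A.pair (fun p => (p z, p z')) :=
  ⟨(continuous_apply z).prodMk (continuous_apply z'), fun _ _ => rfl⟩

theorem hom_comp (A : Act G Z) (q : Z → Z) : (A.pi Z).Hom (A.pi Z) (fun p => p ∘ q) :=
  ⟨continuous_pi fun k => continuous_apply (q k), fun _ _ => rfl⟩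

theorem ellis_apply_mem (A : Act G Z) {p : Z → Z} (hp : p ∈ A.ellis) (z : Z) : p z ∈ A.orb z :=
  (A.hom_ev z).mem_orb hp

theorem ellis_comp_mem_orb (A : Act G Z) {p : Z → Z} (hp : p ∈ A.ellis) (q : Z → Z) :
    p ∘ q ∈ (A.pi Z).orb q :=
  (A.hom_comp q).mem_orb hp

theorem ellis_comp (A : Act G Z) {p q : Z → Z} (hp : p ∈ A.ellis) (hq : q ∈ A.ellis) :
    p ∘ q ∈ A.ellis :=
  (A.pi Z).orb_subset_orb hq (A.ellis_comp_mem_orb hp q)

end Act

theorem exists_idem {Z : Type*} [TopologicalSpace Z] [T2Space Z] [CompactSpace Z] {ι : Type*}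
    (F : Set (ι → Z → Z)) (hne : F.Nonempty) (hc : IsClosed F)
    (hm : ∀ p ∈ F, ∀ q ∈ F, (fun i => p i ∘ q i) ∈ F) : ∃ u ∈ F, ∀ i, u i ∘ u i = u i := by
  let _ : Semigroup (ι → Z → Z) :=
    { mul := fun p q i => p i ∘ q i
      mul_assoc := fun _ _ _ => rfl }
  obtain ⟨u, hu, he⟩ := exists_idempotent_in_compact_subsemigroup (M := ι → Z → Z)
    (fun r => continuous_pi fun i => continuous_pi fun k =>
      (continuous_apply (r i k)).comp (continuous_apply i)) F hne hc.isCompact hm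
  exact ⟨u, hu, fun i => congrFun he i⟩

theorem exists_idem₁ {Z : Type*} [TopologicalSpace Z] [T2Space Z] [CompactSpace Z]
    (F : Set (Z → Z)) (hne : F.Nonempty) (hc : IsClosed F)
    (hm : ∀ p ∈ F, ∀ q ∈ F, p ∘ q ∈ F) : ∃ u ∈ F, u ∘ u = u := by
  let _ : Semigroup (Z → Z) :=
    { mul := fun p q => p ∘ q
      mul_assoc := fun _ _ _ => rfl }
  exact exists_idempotent_in_compact_subsemigroup (M := Z → Z)
    (fun r => continuous_pi fun k => continuous_apply (r k)) F hne hc.isCompact hm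

namespace Act

variable {G Z W : Type*} [AddCommGroup G] [TopologicalSpace Z] [TopologicalSpace W]

/-- Auslander and Ellis, relative form: above a minimal point every point is proximal to a
minimal point of its own fibre. -/
theorem Hom.exists_prox_lift [CompactSpace Z] [T2Space Z] [T2Space W] {A : Act G Z}
    {B : Act G W} {ρ : Z → W} (h : A.Hom B ρ) {z : Z} (hz : B.MinPt (ρ z)) :
    ∃ w, A.MinPt w ∧ ρ w = ρ z ∧ ∃ v, (v, v) ∈ A.pair.orb (z, w) := by
  obtain ⟨w0, hw0, hm, he⟩ := h.exists_lift hz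
  have hfib : ∀ p ∈ A.ellis, ∀ a b, ρ a = ρ b → ρ (p a) = ρ (p b) := by
    intro p hp a b hab
    have h1 : (p a, p b) ∈ A.pair.orb (a, b) := (A.hom_ev₂ a b).mem_orb hp
    have h2 : A.pair.orb (a, b) ⊆ {q | ρ q.1 = ρ q.2} := by
      apply A.pair.orb_subset
      · exact isClosed_eq (h.1.comp continuous_fst) (h.1.comp continuous_snd)
      · intro g q hq
        change ρ (A.f g q.1) = ρ (A.f g q.2)
        rw [h.2, h.2, hq]
      · exact hab
    exact h2 h1
  obtain ⟨u, ⟨hu, hu1, hu2⟩, hid⟩ := exists_idem₁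
    {p | p ∈ A.ellis ∧ p z ∈ A.orb w0 ∧ ρ (p z) = ρ z} (by
      obtain ⟨p, hp, hpz⟩ := (A.hom_ev z).exists_of_mem_orb (z := id) hw0
      refine ⟨p, hp, ?_, ?_⟩
      · rw [hpz]; exact A.self_mem_orb w0
      · rw [hpz]; exact he)
    (by
      refine ((A.pi Z).isClosed_orb id).inter (IsClosed.inter ?_ ?_)
      · exact (A.isClosed_orb w0).preimage (f := fun p : Z → Z => p z) (continuous_apply z)
      · exact isClosed_eq (h.1.comp (continuous_apply z)) continuous_const)
    (by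
      rintro p ⟨hp, hp1, hp2⟩ q ⟨hq, hq1, hq2⟩
      refine ⟨A.ellis_comp hp hq, ?_, ?_⟩
      · exact A.orb_subset_orb hq1 (A.ellis_apply_mem hp _)
      · exact (hfib p hp _ _ hq2).trans hp2)
  refine ⟨u z, hm.of_mem hu1, hu2, u z, ?_⟩
  have h1 : (u z, u (u z)) ∈ A.pair.orb (z, u z) := (A.hom_ev₂ z (u z)).mem_orb hu
  have h2 : u (u z) = u z := congrFun hid z
  rwa [h2] at h1

end Act

end Pool.Agent.Lib.MP_76db73_an
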