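import Pool.Agent.Lib.MP_76db73_an.Tower

/-!
In every minimal system the diagonal points that are piecewise syndetically recurrent for a
product of powers form a residual set.
-/

namespace Pool.Agent.Lib.MP_76db73_an

open Set Topology Filter

theorem PiecewiseSyndetic.mono {S S' : Set ℤ} (h : PiecewiseSyndetic S) (hs : S ⊆ S') :
    PiecewiseSyndetic S' := by
  obtain ⟨N, hN⟩ := h
  refine ⟨N, fun L => ?_⟩
  obtain ⟨a, ha⟩ := hN L
  refine ⟨a, fun k hk => ?_⟩
  obtain ⟨j, hj, hj'⟩ := ha k hk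
  exact ⟨j, hj, hs hj'⟩

namespace Act

/-- An orbit visits each neighbourhood of a minimal point of its closure along a piecewise
syndetic set. -/
theorem ps_of_minPt {Z : Type*} [TopologicalSpace Z] [CompactSpace Z] {P : Act ℤ Z} {z w : Z}
    (hw : w ∈ P.orb z) (hm : P.MinPt w) {V : Set Z} (hV : IsOpen V) (hwV : w ∈ V) :
    PiecewiseSyndetic {n : ℤ | P.f n z ∈ V} := by
  obtain ⟨N, hN⟩ := hm.syndetic hV hwV
  refine ⟨N, fun L => ?_⟩
  have hopen : IsOpen (⋂ k ∈ Icc (0 : ℤ) L, ⋃ j : ℕ, ⋃ _ : j ≤ N, P.f (k + j) ⁻¹' V) :=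
    (Set.finite_Icc _ _).isOpen_biInter fun k _ =>
      isOpen_iUnion fun j => isOpen_iUnion fun _ => hV.preimage (P.cont _)
  have hmem : w ∈ ⋂ k ∈ Icc (0 : ℤ) L, ⋃ j : ℕ, ⋃ _ : j ≤ N, P.f (k + j) ⁻¹' V := by
    refine mem_iInter₂.2 fun k _ => ?_
    obtain ⟨j, hj, hj'⟩ := hN k
    exact mem_iUnion₂.2 ⟨j, hj, hj'⟩
  obtain ⟨_, hv, ⟨a, rfl⟩⟩ := mem_closure_iff.1 hw _ hopen hmem
  refine ⟨a, fun k hk => ?_⟩
  obtain ⟨j, hj, hj'⟩ := mem_iUnion₂.1
    (mem_iInter₂.1 hv (k - a) ⟨by linarith [hk.1], by linarith [hk.2]⟩)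
  refine ⟨j, hj, ?_⟩
  have h1 : P.f (k - a + j) (P.f a z) ∈ V := hj'
  rw [← P.add] at h1
  have h2 : k - a + j + a = k + j := by ring
  rw [h2] at h1
  exact h1

variable {X ι : Type*} [MetricSpace X] [CompactSpace X]

omit [CompactSpace X] in
theorem isOpen_power [Finite ι] {U : Set X} (hU : IsOpen U) :
    IsOpen {v : ι → X | ∀ i, v i ∈ U} := by
  have : {v : ι → X | ∀ i, v i ∈ U} = ⋂ i, (fun v => v i) ⁻¹' U := by
    ext v; simp
  rw [this]
  exact isOpen_iInter_of_finite fun i => hU.preimage (continuous_apply i)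

omit [CompactSpace X] in
theorem baire_ps (A : Act ℤ X) (c : ι → ℤ) {V : Set (ι → X)} (hV : IsOpen V) :
    BaireMeasurableSet
      {x : X | PiecewiseSyndetic {n : ℤ | (A.prodPow c).f n (fun _ => x) ∈ V}} := by
  have : {x : X | PiecewiseSyndetic {n : ℤ | (A.prodPow c).f n (fun _ => x) ∈ V}}
      = ⋃ N : ℕ, ⋂ L : ℕ, ⋃ a : ℤ, ⋂ k : ℤ, ⋂ _ : k ∈ Icc a (a + L), ⋃ j : ℕ, ⋃ _ : j ≤ N,
        {x : X | (A.prodPow c).f (k + j) (fun _ => x) ∈ V} := by
    ext x
    simp only [PiecewiseSyndetic, mem_ofPred_eq, mem_iUnion, mem_iInter, exists_prop]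
  rw [this]
  refine .iUnion fun N => .iInter fun L => .iUnion fun a => .iInter fun k => .iInter fun _ =>
    .iUnion fun j => .iUnion fun _ => IsOpen.baireMeasurableSet ?_
  exact hV.preimage (((A.prodPow c).cont _).comp (continuous_pi fun _ => continuous_id))

theorem ps_residual_in [Finite ι] (A : Act ℤ X) (hmin : ∀ x y, y ∈ A.orb x) (c : ι → ℤ)
    {U : Set X} (hU : IsOpen U) :
    {x : X | x ∈ U → PiecewiseSyndetic
      {n : ℤ | (A.prodPow c).f n (fun _ => x) ∈ {v : ι → X | ∀ i, v i ∈ U}}} ∈ residual X := by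
  obtain ⟨O, hO, hres⟩ := (A.baire_ps c (isOpen_power (ι := ι) hU)).residualEq_isOpen
  have hR : {x : X | PiecewiseSyndetic
      {n : ℤ | (A.prodPow c).f n (fun _ => x) ∈ {v : ι → X | ∀ i, v i ∈ U}} ↔ x ∈ O}
      ∈ residual X := Filter.eventuallyEq_set.1 hres
  generalize hRdef : {x : X | PiecewiseSyndetic
      {n : ℤ | (A.prodPow c).f n (fun _ => x) ∈ {v : ι → X | ∀ i, v i ∈ U}} ↔ x ∈ O} = R at hR
  have hR' : ∀ x ∈ R, PiecewiseSyndetic
      {n : ℤ | (A.prodPow c).f n (fun _ => x) ∈ {v : ι → X | ∀ i, v i ∈ U}} ↔ x ∈ O := by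
    intro x hx
    rw [← hRdef] at hx
    exact hx
  have hall : ⋂ a : ℤ, A.f a ⁻¹' R ∈ residual X := by
    refine countable_iInter_mem.2 fun a => ?_
    refine residual_preimage (A := A) (B := A) ⟨A.cont a, fun g z => ?_⟩ (fun y => ?_) hmin hR
    · rw [← A.add, ← A.add, add_comm]
    · exact ⟨A.f (-a) y, by rw [← A.add, add_neg_cancel, A.zero]⟩
  have hd : Dense (O ∪ interior Uᶜ) := by
    rw [dense_iff_inter_open]
    intro V hV hne
    by_cases hVU : (V ∩ U).Nonempty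
    · obtain ⟨z, _⟩ := hne
      obtain ⟨x0, hx0⟩ := (dense_of_mem_residual hall).nonempty_iff.2 ⟨z⟩
      obtain ⟨a, ha, w, hw, hwm, hwU⟩ := A.exists_minPt_in_power hmin c x0 (hV.inter hU) hVU
      refine ⟨A.f a x0, ha.1, Or.inl ((hR' _ (mem_iInter.1 hx0 a)).1 ?_)⟩
      exact ps_of_minPt hw hwm (isOpen_power hU) fun i => (hwU i).2
    · obtain ⟨z, hz⟩ := hne
      refine ⟨z, hz, Or.inr (interior_maximal (fun y hy hyU => hVU ⟨y, hy, hyU⟩) hV hz)⟩
  filter_upwards [hR, residual_of_dense_open (hO.union isOpen_interior) hd] with x hx hx' hxU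
  rcases hx' with h | h
  · exact (hR' x hx).2 h
  · exact absurd hxU (interior_subset h)

theorem ps_residual [Finite ι] (A : Act ℤ X) (hmin : ∀ x y, y ∈ A.orb x) (c : ι → ℤ) :
    {x : X | ∀ V : Set (ι → X), IsOpen V → (fun _ => x) ∈ V →
      PiecewiseSyndetic {n : ℤ | (A.prodPow c).f n (fun _ => x) ∈ V}} ∈ residual X := by
  have _ := Fintype.ofFinite ι
  have h := (countable_bInter_mem (l := residual X) (TopologicalSpace.countable_countableBasis X)).2
    fun U hU => A.ps_residual_in hmin c (TopologicalSpace.isOpen_of_mem_countableBasis hU)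
  filter_upwards [h] with x hx V hV hxV
  obtain ⟨ε, hε, hball⟩ := Metric.isOpen_iff.1 hV _ hxV
  obtain ⟨U, hU, hxU, hsub⟩ := (TopologicalSpace.isBasis_countableBasis X).exists_subset_of_mem_open
    (Metric.mem_ball_self (x := x) hε) Metric.isOpen_ball
  refine (mem_iInter₂.1 hx U hU hxU).mono fun n hn => hball ?_
  exact (dist_pi_lt_iff hε).2 fun i => hsub (hn i)

end Act

end Pool.Agent.Lib.MP_76db73_an
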