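import Mathlib

/-!
Definitions used in the statement about PI systems: systems, minimality, piecewise syndetic
recurrence, proximal and equicontinuous extensions, (strictly) PI systems.
-/

namespace Pool.Agent.Lib.MP_76db73_an

open Set

universe u v

/-- A topological dynamical system: a compact metric space with a homeomorphism. -/
structure TDS where
  X : Type u
  [metric : MetricSpace X]
  [compact : CompactSpace X]
  T : X ≃ₜ X

attribute [instance] TDS.metric TDS.compact

/-- The orbit closure of `z` under `S`, over all integer times. -/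
def orbitClosure {Z : Type*} [TopologicalSpace Z] (S : Z ≃ₜ Z) (z : Z) : Set Z :=
  closure (range fun n : ℤ => (S ^ n) z)

/-- `z` is a minimal point: its orbit closure is a minimal subsystem. -/
def IsMinimalPoint {Z : Type*} [TopologicalSpace Z] (S : Z ≃ₜ Z) (z : Z) : Prop :=
  ∀ w ∈ orbitClosure S z, orbitClosure S w = orbitClosure S z

/-- `A` is piecewise syndetic: for some `N` the union of `A - j`, `0 ≤ j ≤ N`, contains
arbitrarily long intervals. -/
def PiecewiseSyndetic (A : Set ℤ) : Prop :=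
  ∃ N : ℕ, ∀ L : ℕ, ∃ a : ℤ, ∀ k ∈ Icc a (a + L), ∃ j : ℕ, j ≤ N ∧ k + j ∈ A

/-- `z` is recurrent for the family of piecewise syndetic sets. -/
def PsRecurrent {Z : Type*} [TopologicalSpace Z] (S : Z ≃ₜ Z) (z : Z) : Prop :=
  ∀ V : Set Z, IsOpen V → z ∈ V → PiecewiseSyndetic {n : ℤ | (S ^ n) z ∈ V}

/-- The product `T × T^2 × ... × T^d` on `X^d`. -/
def tau {X : Type*} [TopologicalSpace X] (T : X ≃ₜ X) (d : ℕ) : (Fin d → X) ≃ₜ (Fin d → X) :=
  Homeomorph.piCongrRight fun i : Fin d => T ^ (i.val + 1)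

/-- A minimal system: nonempty, and every orbit is dense. -/
def TDS.IsMinimal (A : TDS.{u}) : Prop :=
  Nonempty A.X ∧ ∀ x : A.X, orbitClosure A.T x = univ

/-- A factor map: continuous, onto and equivariant. -/
def IsFactorMap (A B : TDS.{u}) (p : A.X → B.X) : Prop :=
  Continuous p ∧ Function.Surjective p ∧ ∀ x, p (A.T x) = B.T (p x)

/-- A proximal extension: two points in one fibre come arbitrarily close along the orbit. -/
def IsProximalExt (A B : TDS.{u}) (p : A.X → B.X) : Prop :=
  ∀ x x', p x = p x' → ∀ ε > 0, ∃ n : ℤ, dist ((A.T ^ n) x) ((A.T ^ n) x') < ε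

/-- An equicontinuous extension. -/
def IsEquicontinuousExt (A B : TDS.{u}) (p : A.X → B.X) : Prop :=
  ∀ ε > 0, ∃ δ > 0, ∀ x x', p x = p x' → dist x x' < δ →
    ∀ n : ℤ, dist ((A.T ^ n) x) ((A.T ^ n) x') < ε

/-- A PI tower of height `η`: minimal systems `sys l` for `l ≤ η` with compatible factor maps,
`sys 0` a point, proximal or equicontinuous successor steps and inverse limits at limit
ordinals. The values `sys l` for `l > η` play no role. -/
structure PITower (η : Ordinal.{v}) where
  sys : Ordinal.{v} → TDS.{u}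
  proj : ∀ l n : Ordinal.{v}, n ≤ l → l ≤ η → (sys l).X → (sys n).X
  minimal : ∀ l, l ≤ η → (sys l).IsMinimal
  factor : ∀ l n hn hl, IsFactorMap (sys l) (sys n) (proj l n hn hl)
  proj_self : ∀ l hn hl x, proj l l hn hl x = x
  proj_proj : ∀ l n m (hm : m ≤ n) (hn : n ≤ l) (hl : l ≤ η) x,
    proj n m hm (hn.trans hl) (proj l n hn hl x) = proj l m (hm.trans hn) hl x
  point : ∀ x y : (sys 0).X, x = y
  step : ∀ l (hn : l ≤ l + 1) (hl : l + 1 ≤ η),
    IsProximalExt (sys (l + 1)) (sys l) (proj (l + 1) l hn hl) ∨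
      IsEquicontinuousExt (sys (l + 1)) (sys l) (proj (l + 1) l hn hl)
  limit : ∀ l (hl : l ≤ η), Order.IsSuccLimit l →
    ∀ y : ∀ n : Ordinal.{v}, n < l → (sys n).X,
      (∀ n m (hm : m ≤ n) (hn : n < l),
        proj n m hm (hn.le.trans hl) (y n hn) = y m (hm.trans_lt hn)) →
      ∃! x : (sys l).X, ∀ n (hn : n < l), proj l n hn.le hl x = y n hn

/-- A strictly PI system is the top of a PI tower. -/
def TDS.IsStrictlyPI (A : TDS.{u}) : Prop :=
  ∃ (η : Ordinal.{v}) (t : PITower.{u, v} η), t.sys η = A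

/-- A PI system: a minimal system that is a proximal factor of a strictly PI system. -/
def TDS.IsPI (A : TDS.{u}) : Prop :=
  A.IsMinimal ∧ ∃ (B : TDS.{u}) (p : B.X → A.X),
    TDS.IsStrictlyPI.{u, v} B ∧ IsFactorMap B A p ∧ IsProximalExt B A p

end Pool.Agent.Lib.MP_76db73_an
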