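import Pool.Agent.Lib.MP_76db73_an.Act

/-!
The diagonal point of a minimal system is minimal for the two-parameter action by
arithmetic progressions (Glasner), and a consequence.
-/

namespace Pool.Agent.Lib.MP_76db73_an

open Set Topology

namespace Act

variable {X Y ι : Type*} [TopologicalSpace X] [TopologicalSpace Y]

/-- The product of the powers `T ^ (c i)`. -/
def prodPow (A : Act ℤ X) (c : ι → ℤ) : Act ℤ (ι → X) where
  f n w := fun i => A.f (c i * n) (w i)
  cont n := continuous_pi fun i => (A.cont _).comp (continuous_apply i)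
  zero w := funext fun i => by simp [A.zero]
  add g h w := funext fun i => by rw [mul_add, A.add]

/-- The two-parameter action by `T ^ (a + c i * d)`. -/
def prog (A : Act ℤ X) (c : ι → ℤ) : Act (ℤ × ℤ) (ι → X) where
  f g w := fun i => A.f (g.1 + c i * g.2) (w i)
  cont g := continuous_pi fun i => (A.cont _).comp (continuous_apply i)
  zero w := funext fun i => by simp [A.zero]
  add g h w := funext fun i => by
    rw [← A.add]
    congr 1
    simp only [Prod.fst_add, Prod.snd_add]
    ring

theorem glasner [CompactSpace X] [T2Space X] (A : Act ℤ X) (hmin : ∀ x y, y ∈ A.orb x)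
    (c : ι → ℤ) (x0 : X) : (A.prog c).MinPt (fun _ => x0) := by
  intro w hw
  set P := (A.pi X).prog c with hP
  set e : ι → X → X := fun _ => id with he
  have hcoord : ∀ p ∈ P.orb e, ∀ i, p i ∈ A.ellis := by
    have : P.orb e ⊆ {p | ∀ i, p i ∈ A.ellis} := by
      apply P.orb_subset
      · have : {p : ι → X → X | ∀ i, p i ∈ A.ellis} = ⋂ i, (fun p => p i) ⁻¹' A.ellis := by
          ext p; simp
        rw [this]
        exact isClosed_iInter fun i => ((A.pi X).isClosed_orb id).preimage (continuous_apply i)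
      · intro g p hp i
        exact (A.pi X).inv_orb id _ _ (hp i)
      · intro i
        exact (A.pi X).self_mem_orb id
    exact fun p hp => this hp
  have hright : ∀ q : ι → X → X, P.Hom P (fun p i => p i ∘ q i) := fun q =>
    ⟨continuous_pi fun i => continuous_pi fun k =>
      (continuous_apply (q i k)).comp (continuous_apply i), fun _ _ => rfl⟩
  have hev : ∀ v : ι → X, P.Hom (A.prog c) (fun p i => p i (v i)) := fun v =>
    ⟨continuous_pi fun i => (continuous_apply (v i)).comp (continuous_apply i), fun _ _ => rfl⟩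
  have hconst : ∀ u ∈ A.ellis, (fun _ : ι => u) ∈ P.orb e := by
    intro u hu
    apply map_mem_closure (f := fun (p : X → X) (_ : ι) => p)
      (continuous_pi fun _ => continuous_id) hu
    rintro _ ⟨a, rfl⟩
    refine ⟨(a, 0), ?_⟩
    funext i k
    change A.f (a + c i * 0) k = A.f a k
    simp
  have hcomp : ∀ p ∈ P.orb e, ∀ q ∈ P.orb e, (fun i => p i ∘ q i) ∈ P.orb e := by
    intro p hp q hq
    exact P.orb_subset_orb hq ((hright q).mem_orb hp)
  have hact : ∀ p ∈ P.orb e, ∀ v, (fun i => p i (v i)) ∈ (A.prog c).orb v :=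
    fun p hp v => (hev v).mem_orb hp
  obtain ⟨p0, hp0, hp0m⟩ := (A.pi X).exists_minPt id
  have hI : ∀ p ∈ A.ellis, ∀ q ∈ (A.pi X).orb p0, p ∘ q ∈ (A.pi X).orb p0 := fun p hp q hq =>
    (A.pi X).orb_subset_orb hq (A.ellis_comp_mem_orb hp q)
  have hIE : (A.pi X).orb p0 ⊆ A.ellis := (A.pi X).orb_subset_orb hp0
  obtain ⟨u, ⟨huI, hux⟩, hid⟩ := exists_idem₁ {p | p ∈ (A.pi X).orb p0 ∧ p x0 = x0}
    (by
      obtain ⟨p, hp, hpx⟩ := (A.hom_ev x0).exists_of_mem_orb (z := p0) (hmin _ x0)
      exact ⟨p, hp, hpx⟩)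
    (((A.pi X).isClosed_orb p0).inter (isClosed_eq (continuous_apply x0) continuous_const))
    (by
      rintro p ⟨hp, hpx⟩ q ⟨hq, hqx⟩
      refine ⟨hI p (hIE hp) q hq, ?_⟩
      change p (q x0) = x0
      rw [hqx, hpx])
  obtain ⟨t, ⟨htE, htM, htu⟩, htid⟩ := exists_idem
    {p : ι → X → X | p ∈ P.orb e ∧ (fun i => p i x0) ∈ (A.prog c).orb w ∧ ∀ i, p i ∘ u = p i}
    (by
      obtain ⟨p, hp, hpw⟩ := (hev (fun _ => x0)).exists_of_mem_orb (z := e) hw
      refine ⟨fun i => p i ∘ u, hcomp p hp _ (hconst u (hIE huI)), ?_, ?_⟩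
      · have : (fun i => (p i ∘ u) x0) = w := by
          rw [← hpw]; funext i; simp [hux]
        rw [this]
        exact (A.prog c).self_mem_orb w
      · intro i
        rw [Function.comp_assoc, hid])
    (by
      refine (P.isClosed_orb e).inter (IsClosed.inter ?_ ?_)
      · exact ((A.prog c).isClosed_orb w).preimage (hev (fun _ => x0)).1
      · have : {p : ι → X → X | ∀ i, p i ∘ u = p i} = ⋂ i, {p | p i ∘ u = p i} := by
          ext p; simp
        change IsClosed {p : ι → X → X | ∀ i, p i ∘ u = p i}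
        rw [this]
        exact isClosed_iInter fun i => isClosed_eq
          (continuous_pi fun k => (continuous_apply (u k)).comp (continuous_apply i))
          (continuous_apply i))
    (by
      rintro p ⟨hp, hpM, hpu⟩ q ⟨hq, hqM, hqu⟩
      refine ⟨hcomp p hp q hq, ?_, fun i => ?_⟩
      · exact (A.prog c).orb_subset_orb hqM (hact p hp _)
      · rw [Function.comp_assoc, hqu i])
  have hkey : ∀ i, u ∘ t i = u := by
    intro i
    have h1 : t i ∈ (A.pi X).orb p0 := by
      rw [← htu i]
      exact hI _ (hcoord t htE i) u huI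
    have h2 : u ∘ t i ∈ (A.pi X).orb p0 := hI u (hIE huI) _ h1
    have h3 : u ∈ (A.pi X).orb (id ∘ (u ∘ t i)) := by
      change u ∈ (A.pi X).orb (u ∘ t i)
      rw [hp0m.orb_eq h2]
      exact huI
    obtain ⟨q, _, hq⟩ := (A.hom_comp (u ∘ t i)).exists_of_mem_orb (z := id) h3
    have h4 : u ∘ t i = q ∘ (u ∘ t i) ∘ t i := by
      conv_lhs => rw [← hq]
      rfl
    rw [h4, Function.comp_assoc u, htid i]
    exact hq
  have h5 : (fun i => u (t i x0)) ∈ (A.prog c).orb w :=
    (A.prog c).orb_subset_orb htM (hact _ (hconst u (hIE huI)) _)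
  have h6 : (fun i => u (t i x0)) = fun _ => x0 := by
    funext i
    exact (congrFun (hkey i) x0).trans hux
  rwa [h6] at h5

/-- The shift by `a` in every coordinate commutes with the product of powers. -/
theorem hom_shift (A : Act ℤ X) (c : ι → ℤ) (a : ℤ) :
    (A.prodPow c).Hom (A.prodPow c) (fun w i => A.f a (w i)) := by
  refine ⟨continuous_pi fun i => (A.cont a).comp (continuous_apply i), fun g w => ?_⟩
  funext i
  change A.f a (A.f (c i * g) (w i)) = A.f (c i * g) (A.f a (w i))
  rw [← A.add, ← A.add, add_comm]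

/-- Along any orbit one finds a point of `U` whose diagonal orbit closure has a minimal point
in the power of `U`. -/
theorem exists_minPt_in_power [CompactSpace X] [T2Space X] [Finite ι] (A : Act ℤ X)
    (hmin : ∀ x y, y ∈ A.orb x) (c : ι → ℤ) (x0 : X) {U : Set X} (hU : IsOpen U)
    (hne : U.Nonempty) :
    ∃ a : ℤ, A.f a x0 ∈ U ∧ ∃ w ∈ (A.prodPow c).orb (fun _ => A.f a x0),
      (A.prodPow c).MinPt w ∧ ∀ i, w i ∈ U := by
  obtain ⟨x1, hx1⟩ := hne
  obtain ⟨w, hw, hwm⟩ := (A.prodPow c).exists_minPt (fun _ => x0)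
  let c' : Option ι → ℤ := fun o => o.elim 0 c
  let j : (ι → X) → (Option ι → X) := fun v o => o.elim x0 v
  have hj : Continuous j := by
    refine continuous_pi fun o => ?_
    cases o with
    | none => exact continuous_const
    | some i => exact continuous_apply i
  have h1 : j w ∈ (A.prog c').orb (fun _ => x0) := by
    apply map_mem_closure hj hw
    rintro _ ⟨d, rfl⟩
    refine ⟨(0, d), ?_⟩
    funext o
    cases o with
    | none =>
      change A.f (0 + 0 * d) x0 = x0
      simp [A.zero]
    | some i =>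
      change A.f (0 + c i * d) x0 = A.f (c i * d) x0
      simp
  have h2 : (fun _ => x0) ∈ (A.prog c').orb (j w) := A.glasner hmin c' x0 _ h1
  have h3 : (fun _ => x1) ∈ (A.prog c').orb (fun _ => x0) := by
    apply map_mem_closure (f := fun (x : X) (_ : Option ι) => x)
      (continuous_pi fun _ => continuous_id) (hmin x0 x1)
    rintro _ ⟨a, rfl⟩
    refine ⟨(a, 0), ?_⟩
    funext o
    change A.f (a + c' o * 0) x0 = A.f a x0
    simp
  have h4 : (fun _ => x1) ∈ (A.prog c').orb (j w) := (A.prog c').orb_subset_orb h2 h3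
  have hopen : IsOpen {v : Option ι → X | ∀ o, v o ∈ U} := by
    have : {v : Option ι → X | ∀ o, v o ∈ U} = ⋂ o, (fun v => v o) ⁻¹' U := by
      ext v; simp
    rw [this]
    exact isOpen_iInter_of_finite fun o => hU.preimage (continuous_apply o)
  obtain ⟨_, hv, ⟨g, rfl⟩⟩ := mem_closure_iff.1 h4 _ hopen (fun _ => hx1)
  refine ⟨g.1, ?_, fun i => A.f g.1 ((A.prodPow c).f g.2 w i), ?_, ?_, fun i => ?_⟩
  · have := hv none
    change A.f (g.1 + 0 * g.2) x0 ∈ U at this
    simpa using this
  · exact (A.hom_shift c g.1).mem_orb ((A.prodPow c).inv_orb _ _ _ hw)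
  · exact (A.hom_shift c g.1).minPt (hwm.of_mem ((A.prodPow c).f_mem_orb _ _))
  · have := hv (some i)
    change A.f (g.1 + c i * g.2) (w i) ∈ U at this
    rw [A.add] at this
    exact this

end Act

end Pool.Agent.Lib.MP_76db73_an
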