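import Pool.Agent.Lib.MP_76db73_an.Tower

namespace Pool.Agent.Lib.MP_76db73_an.OldDiagonal

open Pool.Agent.Lib.MP_76db73_an

universe u v

/-- In every minimal PI system the points `x` such that the diagonal point `(x, x)` is piecewise
syndetically recurrent under `T × T^2` contain a nonempty dense G-delta set. -/
theorem result (A : TDS.{u}) (hA : TDS.IsPI.{u, v} A) :
    ∃ Ω : Set A.X, IsGδ Ω ∧ Dense Ω ∧ Ω.Nonempty ∧
      ∀ x ∈ Ω, PsRecurrent (A.T.prodCongr (A.T ^ 2)) (x, x) := by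
  obtain ⟨Ω, hsub, hG, hd⟩ := mem_residual.1 (hA.good_residual 2)
  have : Nonempty A.X := hA.1.1
  refine ⟨Ω, hG, hd, hd.nonempty, fun x hx V hV hxV => ?_⟩
  let ρ : (Fin 2 → A.X) → A.X × A.X := fun w => (w 0, w 1)
  have hρ : Continuous ρ := by fun_prop
  have h := (good_imp (hsub hx)).2 (ρ ⁻¹' V) (hV.preimage hρ) hxV
  have h2 : ∀ n : ℤ, ρ ((tau A.T 2 ^ n) fun _ => x) = (A.T.prodCongr (A.T ^ 2) ^ n) (x, x) :=
    fun n => semiconj_zpow (S := tau A.T 2) (R := A.T.prodCongr (A.T ^ 2)) (ρ := ρ)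
      (fun _ => rfl) n _
  simpa only [Set.mem_preimage, h2] using h

end Pool.Agent.Lib.MP_76db73_an.OldDiagonal
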