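import Pool.Agent.Lib.MP_76db73_an.Glasner

/-!
The set of multiply minimal points stays residual along proximal extensions, distal
extensions, inverse limits and factors.
-/

namespace Pool.Agent.Lib.MP_76db73_an

open Set Topology Filter

namespace Act

variable {X Y ι : Type*} [MetricSpace X] [CompactSpace X] [MetricSpace Y] [CompactSpace Y]

/-- Points whose diagonal point is minimal for the product of powers. -/
def Good {Z : Type*} [TopologicalSpace Z] (A : Act ℤ Z) (c : ι → ℤ) : Set Z :=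
  {x | (A.prodPow c).MinPt (fun _ => x)}

omit [CompactSpace X] [CompactSpace Y] in
theorem Hom.prodPow {A : Act ℤ X} {B : Act ℤ Y} {π : X → Y} (h : A.Hom B π) (c : ι → ℤ) :
    (A.prodPow c).Hom (B.prodPow c) (fun w i => π (w i)) :=
  ⟨continuous_pi fun i => h.1.comp (continuous_apply i), fun _ _ => funext fun _ => h.2 _ _⟩

theorem good_shift (A : Act ℤ X) (c : ι → ℤ) (a : ℤ) {x : X} (hx : x ∈ A.Good c) :
    A.f a x ∈ A.Good c :=
  (A.hom_shift c a).minPt hx

theorem semiopen {A : Act ℤ X} {B : Act ℤ Y} {π : X → Y} (h : A.Hom B π)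
    (hs : Function.Surjective π) (hmin : ∀ x y, y ∈ A.orb x) {U : Set X} (hU : IsOpen U)
    (hne : U.Nonempty) : (interior (π '' U)).Nonempty := by
  obtain ⟨x, hx⟩ := hne
  obtain ⟨C, hC, hCc, hCU⟩ := exists_mem_nhds_isClosed_subset (hU.mem_nhds hx)
  have hπC : IsClosed (π '' C) := (hCc.isCompact.image h.1).isClosed
  have : Nonempty Y := ⟨π x⟩
  obtain ⟨n, y, hy⟩ := nonempty_interior_of_iUnion_of_closed
    (f := fun n : ℤ => (B.f n) ⁻¹' (π '' C)) (fun n => hπC.preimage (B.cont n)) (by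
      apply eq_univ_of_forall
      intro y
      obtain ⟨z, rfl⟩ := hs y
      obtain ⟨_, hv, ⟨n, rfl⟩⟩ := mem_closure_iff.1 (hmin z x) _ isOpen_interior
        (mem_interior_iff_mem_nhds.2 hC)
      exact mem_iUnion.2 ⟨n, _, interior_subset hv, h.2 n z⟩)
  refine ⟨B.f n y, ?_⟩
  have hsub : (B.f (-n)) ⁻¹' interior ((B.f n) ⁻¹' (π '' C)) ⊆ π '' U := by
    intro v hv
    have h1 : B.f n (B.f (-n) v) ∈ π '' C :=
      interior_subset (s := (B.f n) ⁻¹' (π '' C)) hv
    rw [← B.add, add_neg_cancel, B.zero] at h1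
    exact image_mono hCU h1
  apply interior_maximal hsub (isOpen_interior.preimage (B.cont _))
  rw [mem_preimage]
  rwa [← B.add, neg_add_cancel, B.zero]

theorem residual_preimage {A : Act ℤ X} {B : Act ℤ Y} {π : X → Y} (h : A.Hom B π)
    (hs : Function.Surjective π) (hmin : ∀ x y, y ∈ A.orb x) {s : Set Y}
    (hr : s ∈ residual Y) : π ⁻¹' s ∈ residual X := by
  obtain ⟨S, ho, hd, hc, hsub⟩ := mem_residual_iff.1 hr
  apply mem_of_superset _ (preimage_mono hsub)
  rw [sInter_eq_biInter, preimage_iInter₂]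
  refine (countable_bInter_mem hc).2 fun t ht => ?_
  apply residual_of_dense_open ((ho t ht).preimage h.1)
  rw [dense_iff_inter_open]
  intro U hU hne
  obtain ⟨y, hy1, hy2⟩ := dense_iff_inter_open.1 (hd t ht) _ isOpen_interior
    (semiopen h hs hmin hU hne)
  obtain ⟨x, hx, rfl⟩ := interior_subset hy1
  exact ⟨x, hx, hy2⟩

/-- Proximality passes to nonzero powers. -/
theorem prox_pow (A : Act ℤ X) {x x' : X}
    (hp : ∀ ε > 0, ∃ n : ℤ, dist (A.f n x) (A.f n x') < ε) {c : ℤ} (hc : c ≠ 0) :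
    ∀ ε > 0, ∃ n : ℤ, dist (A.f (c * n) x) (A.f (c * n) x') < ε := by
  intro ε hε
  have hu : ∀ j : ℤ, ∀ᶠ δ in 𝓝[>] (0 : ℝ), ∀ a b, dist a b < δ → dist (A.f j a) (A.f j b) < ε := by
    intro j
    obtain ⟨δ, hδ, hδ'⟩ := Metric.uniformContinuous_iff.1
      (CompactSpace.uniformContinuous_of_continuous (A.cont j)) ε hε
    filter_upwards [Ioo_mem_nhdsGT hδ] with δ' hδ'' a b hab
    exact hδ' (hab.trans hδ''.2)
  have hall : ∀ᶠ δ in 𝓝[>] (0 : ℝ), ∀ j ∈ Finset.Icc (0 : ℤ) |c|,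
      ∀ a b, dist a b < δ → dist (A.f j a) (A.f j b) < ε :=
    (eventually_all_finset _).2 fun j _ => hu j
  obtain ⟨δ, hδ, hδ0⟩ := (hall.and self_mem_nhdsWithin).exists
  obtain ⟨n, hn⟩ := hp δ hδ0
  refine ⟨-((-n) / c), ?_⟩
  have h1 : c * -((-n) / c) = (-n) % c + n := by
    have := Int.emod_add_mul_ediv (-n) c
    linear_combination -this
  rw [h1, A.add, A.add]
  apply hδ _ _ _ _ hn
  exact Finset.mem_Icc.2 ⟨Int.emod_nonneg _ hc, (Int.emod_lt_abs _ hc).le⟩

omit [CompactSpace Y] in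
/-- Over a proximal extension, two minimal points of the product in one fibre lie in one
minimal set. -/
theorem minPt_unique {A : Act ℤ X} {B : Act ℤ Y} {π : X → Y} (h : A.Hom B π)
    (hp : ∀ x x', π x = π x' → ∀ ε > 0, ∃ n : ℤ, dist (A.f n x) (A.f n x') < ε)
    {c : ι → ℤ} (hc : ∀ i, c i ≠ 0) {w w' : ι → X} (hw' : (A.prodPow c).MinPt w')
    (he : (fun i => π (w i)) = fun i => π (w' i)) : w' ∈ (A.prodPow c).orb w := by
  set P := A.prodPow c with hP
  obtain ⟨q, hq, hqm⟩ := P.pair.exists_minPt (w, w')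
  have hfib : ∀ i, π (q.1 i) = π (q.2 i) := by
    intro i
    have : P.pair.orb (w, w') ⊆ {q | π (q.1 i) = π (q.2 i)} := by
      apply P.pair.orb_subset
      · exact isClosed_eq (h.1.comp ((continuous_apply i).comp continuous_fst))
          (h.1.comp ((continuous_apply i).comp continuous_snd))
      · intro g r hr
        change π (A.f _ (r.1 i)) = π (A.f _ (r.2 i))
        rw [h.2, h.2, hr]
      · exact congrFun he i
    exact this hq
  have hqq : q.1 = q.2 := by
    funext i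
    have hcont : Continuous fun r : (ι → X) × (ι → X) => dist (r.1 i) (r.2 i) :=
      ((continuous_apply i).comp continuous_fst).dist ((continuous_apply i).comp continuous_snd)
    obtain ⟨r, hr, hrmin⟩ := (P.pair.isClosed_orb q).isCompact.exists_isMinOn
      ⟨q, P.pair.self_mem_orb q⟩ hcont.continuousOn
    have hr0 : r.1 i = r.2 i := by
      apply eq_of_forall_dist_le
      intro ε hε
      obtain ⟨n, hn⟩ := A.prox_pow (hp _ _ (hfib i)) (hc i) ε hε
      exact (hrmin (P.pair.f_mem_orb n q)).trans hn.le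
    have : P.pair.orb r ⊆ {q | q.1 i = q.2 i} := by
      apply P.pair.orb_subset
      · exact isClosed_eq ((continuous_apply i).comp continuous_fst)
          ((continuous_apply i).comp continuous_snd)
      · intro g s hs
        change A.f _ (s.1 i) = A.f _ (s.2 i)
        rw [hs]
      · exact hr0
    exact this (hqm r hr)
  have h1 : q.1 ∈ P.orb w := P.hom_fst.mem_orb hq
  have h2 : q.2 ∈ P.orb w' := P.hom_snd.mem_orb hq
  rw [hqq] at h1
  exact P.orb_subset_orb h1 (hw' _ h2)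

/-- The proximal step. -/
theorem good_residual_prox [Finite ι] {A : Act ℤ X} {B : Act ℤ Y} {π : X → Y} (h : A.Hom B π)
    (hs : Function.Surjective π) (hmin : ∀ x y, y ∈ A.orb x)
    (hp : ∀ x x', π x = π x' → ∀ ε > 0, ∃ n : ℤ, dist (A.f n x) (A.f n x') < ε)
    {c : ι → ℤ} (hc : ∀ i, c i ≠ 0) (hB : B.Good c ∈ residual Y) : A.Good c ∈ residual X := by
  classical
  have _ := Fintype.ofFinite ι
  set P := A.prodPow c with hP
  set Q := B.prodPow c with hQ
  let ρ : (ι → X) → (ι → Y) := fun w i => π (w i)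
  have hρ : P.Hom Q ρ := h.prodPow c
  have huniq : ∀ y ∈ B.Good c, ∀ w w', P.MinPt w' → ρ w ∈ Q.orb (fun _ => y) →
      ρ w' ∈ Q.orb (fun _ => y) → w' ∈ P.orb w := by
    intro y hy w w' hw' h1 h2
    have h3 : ρ w' ∈ Q.orb (ρ w) := by
      rw [MinPt.orb_eq hy h1]; exact h2
    obtain ⟨v, hv, hve⟩ := hρ.exists_of_mem_orb h3
    exact P.orb_subset_orb hv (minPt_unique h hp hc hw' hve)
  let C : Set X → Set (ι → X) := fun U => {w | ∀ n, ¬ ∀ i, P.f n w i ∈ U}
  have hCc : ∀ U, IsOpen U → IsClosed (C U) := by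
    intro U hU
    have : C U = ⋂ n, (P.f n) ⁻¹' (⋂ i, (fun v => v i) ⁻¹' U)ᶜ := by
      ext w; simp [C]
    rw [this]
    exact isClosed_iInter fun n => IsClosed.preimage (P.cont n)
      (isOpen_iInter_of_finite fun i => hU.preimage (continuous_apply i)).isClosed_compl
  have hCi : ∀ U, P.Inv (C U) := by
    intro U g w hw n
    rw [← P.add]
    exact hw _
  let O : ℕ → Set X := fun k => ⋃ z : X,
    (Metric.ball z (1 / (k + 1)) ∩ {x | (fun _ => π x) ∉ ρ '' C (Metric.ball z (1 / (k + 1)))})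
  have hOo : ∀ k, IsOpen (O k) := by
    intro k
    refine isOpen_iUnion fun z => Metric.isOpen_ball.inter ?_
    have : IsClosed (ρ '' C (Metric.ball z (1 / (k + 1)))) :=
      ((hCc _ Metric.isOpen_ball).isCompact.image hρ.1).isClosed
    exact this.isOpen_compl.preimage (f := fun (x : X) (_ : ι) => π x)
      (continuous_pi fun _ => h.1)
  have hres : π ⁻¹' B.Good c ∈ residual X := residual_preimage h hs hmin hB
  have hOd : ∀ k, Dense (O k) := by
    intro k
    rw [dense_iff_inter_open]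
    rintro V hV ⟨z, hz⟩
    obtain ⟨x0, hx0⟩ := (dense_of_mem_residual hres).nonempty_iff.2 ⟨z⟩
    have hpos : (0 : ℝ) < 1 / (k + 1) := Nat.one_div_pos_of_nat
    obtain ⟨a, ha, w, hw, hwm, hwU⟩ := A.exists_minPt_in_power hmin c x0
      (hV.inter (Metric.isOpen_ball (x := z) (ε := 1 / (k + 1))))
      ⟨z, hz, Metric.mem_ball_self hpos⟩
    refine ⟨A.f a x0, ha.1, mem_iUnion.2 ⟨z, ha.2, ?_⟩⟩
    rintro ⟨p, hpC, hpe⟩
    have hy : π (A.f a x0) ∈ B.Good c := by
      rw [h.2]; exact B.good_shift c a hx0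
    have h1 : w ∈ P.orb p := by
      apply huniq _ hy p w hwm
      · rw [hpe]; exact Q.self_mem_orb _
      · exact hρ.mem_orb hw
    have h2 : w ∈ C (Metric.ball z (1 / (k + 1))) :=
      P.orb_subset (hCc _ Metric.isOpen_ball) (hCi _) hpC h1
    apply h2 0
    intro i
    rw [P.zero]
    exact (hwU i).2
  have hO : ⋂ k, O k ∈ residual X :=
    countable_iInter_mem.2 fun k => residual_of_dense_open (hOo k) (hOd k)
  filter_upwards [hres, hO] with x hx hxO
  obtain ⟨w, _, hwm, hwe⟩ := hρ.exists_lift (z := fun _ => x) hx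
  apply hwm.of_mem
  apply (P.isClosed_orb w).closure_subset
  rw [Metric.mem_closure_iff]
  intro ε hε
  obtain ⟨k, hk⟩ := exists_nat_one_div_lt (half_pos hε)
  obtain ⟨z, hz1, hz2⟩ := mem_iUnion.1 (mem_iInter.1 hxO k)
  have : w ∉ C (Metric.ball z (1 / (k + 1))) := fun hw => hz2 ⟨w, hw, hwe⟩
  obtain ⟨n, hn⟩ : ∃ n, ∀ i, P.f n w i ∈ Metric.ball z (1 / (k + 1)) := by
    by_contra hcon
    exact this fun n hn => hcon ⟨n, hn⟩
  refine ⟨P.f n w, P.f_mem_orb n w, (dist_pi_lt_iff hε).2 fun i => ?_⟩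
  have h1 := hn i
  rw [Metric.mem_ball] at h1 hz1
  calc dist x (P.f n w i) ≤ dist x z + dist (P.f n w i) z := dist_triangle_right _ _ _
    _ < ε / 2 + ε / 2 := add_lt_add (hz1.trans hk) (h1.trans hk)
    _ = ε := add_halves ε

omit [CompactSpace Y] in
/-- The distal step. -/
theorem good_of_distal {A : Act ℤ X} {B : Act ℤ Y} {π : X → Y} (h : A.Hom B π)
    (hd : ∀ x x', π x = π x' → (∀ ε > 0, ∃ n : ℤ, dist (A.f n x) (A.f n x') < ε) → x = x')
    (c : ι → ℤ) {x : X} (hx : π x ∈ B.Good c) : x ∈ A.Good c := by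
  obtain ⟨w, hwm, hwe, v, hv⟩ := (h.prodPow c).exists_prox_lift (z := fun _ => x) hx
  have : (fun _ => x) = w := by
    funext i
    apply hd _ _ (congrFun hwe i).symm
    intro ε hε
    have hcont : Continuous fun r : (ι → X) × (ι → X) => dist (r.1 i) (r.2 i) :=
      ((continuous_apply i).comp continuous_fst).dist ((continuous_apply i).comp continuous_snd)
    obtain ⟨_, hr, ⟨n, rfl⟩⟩ := mem_closure_iff.1 hv _ (isOpen_lt hcont continuous_const)
      (show dist (v i) (v i) < ε by simpa using hε)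
    exact ⟨c i * n, hr⟩
  change (A.prodPow c).MinPt (fun _ => x)
  rw [this]
  exact hwm

theorem good_residual_distal {A : Act ℤ X} {B : Act ℤ Y} {π : X → Y} (h : A.Hom B π)
    (hs : Function.Surjective π) (hmin : ∀ x y, y ∈ A.orb x)
    (hd : ∀ x x', π x = π x' → (∀ ε > 0, ∃ n : ℤ, dist (A.f n x) (A.f n x') < ε) → x = x')
    (c : ι → ℤ) (hB : B.Good c ∈ residual Y) : A.Good c ∈ residual X :=
  mem_of_superset (residual_preimage h hs hmin hB) fun _ hx => good_of_distal h hd c hx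

/-- The inverse limit step. -/
theorem good_residual_limit {κ : Type*} [LinearOrder κ] [Nonempty κ] {Z : κ → Type*}
    [∀ k, MetricSpace (Z k)] [∀ k, CompactSpace (Z k)] {A : Act ℤ X} {B : ∀ k, Act ℤ (Z k)}
    {π : ∀ k, X → Z k} (h : ∀ k, A.Hom (B k) (π k)) (hs : ∀ k, Function.Surjective (π k))
    (hmin : ∀ x y, y ∈ A.orb x)
    (hmono : ∀ k l, k ≤ l → ∀ x x', π l x = π l x' → π k x = π k x')
    (hsep : ∀ x x', (∀ k, π k x = π k x') → x = x')
    (c : ι → ℤ) (hB : ∀ k, (B k).Good c ∈ residual (Z k)) : A.Good c ∈ residual X := by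
  obtain ⟨K, hKc, hK⟩ := TopologicalSpace.isOpen_iUnion_countable
    (fun k => {q : X × X | π k q.1 ≠ π k q.2})
    (fun k => (isClosed_eq ((h k).1.comp continuous_fst) ((h k).1.comp continuous_snd)).isOpen_compl)
  obtain ⟨k0⟩ := ‹Nonempty κ›
  have hsep' : ∀ x x', (∀ k ∈ insert k0 K, π k x = π k x') → x = x' := by
    intro x x' hx
    apply hsep
    intro k
    by_contra hk
    have : (x, x') ∈ ⋃ k, {q : X × X | π k q.1 ≠ π k q.2} := mem_iUnion.2 ⟨k, hk⟩
    rw [← hK] at this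
    obtain ⟨l, hl, hl'⟩ := mem_iUnion₂.1 this
    exact hl' (hx l (mem_insert_of_mem _ hl))
  have hres : ⋂ k ∈ insert k0 K, π k ⁻¹' (B k).Good c ∈ residual X :=
    (countable_bInter_mem (hKc.insert k0)).2 fun k _ => residual_preimage (h k) (hs k) hmin (hB k)
  filter_upwards [hres] with x hx
  set P := A.prodPow c with hP
  obtain ⟨w, hw, hwm⟩ := P.exists_minPt (fun _ => x)
  have : Nonempty (insert k0 K : Set κ) := ⟨⟨k0, mem_insert _ _⟩⟩
  have hcl : ∀ k : (insert k0 K : Set κ),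
      IsClosed (P.orb w ∩ {v | (fun i => π k (v i)) = fun _ => π k x}) := fun k =>
    (P.isClosed_orb w).inter (isClosed_eq ((h k).prodPow c).1 continuous_const)
  obtain ⟨v, hv⟩ := IsCompact.nonempty_iInter_of_directed_nonempty_isCompact_isClosed
    (fun k : (insert k0 K : Set κ) => P.orb w ∩ {v | (fun i => π k (v i)) = fun _ => π k x})
    (by
      intro k l
      rcases le_total k.1 l.1 with hkl | hkl
      · refine ⟨l, ?_, subset_rfl⟩
        rintro v ⟨hv1, hv2⟩
        exact ⟨hv1, funext fun i => hmono _ _ hkl _ _ (congrFun hv2 i)⟩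
      · refine ⟨k, subset_rfl, ?_⟩
        rintro v ⟨hv1, hv2⟩
        exact ⟨hv1, funext fun i => hmono _ _ hkl _ _ (congrFun hv2 i)⟩)
    (by
      intro k
      have hk : ((B k).prodPow c).MinPt (fun _ => π k x) := mem_iInter₂.1 hx k.1 k.2
      obtain ⟨v, hv, hve⟩ := ((h k).prodPow c).exists_of_mem_orb
        (hk _ (((h k).prodPow c).mem_orb hw))
      exact ⟨v, hv, hve⟩)
    (fun k => (hcl k).isCompact) hcl
  have hv' := mem_iInter.1 hv
  have : v = fun _ => x := by
    funext i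
    exact hsep' _ _ fun k hk => congrFun (hv' ⟨k, hk⟩).2 i
  have h1 : v ∈ P.orb w := (hv' ⟨k0, mem_insert _ _⟩).1
  rw [this] at h1
  exact hwm.of_mem h1

/-- Minimal points return syndetically. -/
theorem MinPt.syndetic {Z : Type*} [TopologicalSpace Z] [CompactSpace Z] {P : Act ℤ Z} {z : Z}
    (hz : P.MinPt z) {V : Set Z} (hV : IsOpen V) (hzV : z ∈ V) :
    ∃ N : ℕ, ∀ k : ℤ, ∃ j : ℕ, j ≤ N ∧ P.f (k + j) z ∈ V := by
  obtain ⟨F, hF⟩ := (P.isClosed_orb z).isCompact.elim_finite_subcover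
    (fun n : ℤ => (P.f n) ⁻¹' V) (fun n => hV.preimage (P.cont n)) (by
      intro w hw
      obtain ⟨_, hv, ⟨n, rfl⟩⟩ := mem_closure_iff.1 (hz w hw) _ hV hzV
      exact mem_iUnion.2 ⟨n, hv⟩)
  obtain ⟨K, hK⟩ := (F.image fun n => n.natAbs).bddAbove
  refine ⟨2 * K, fun k => ?_⟩
  obtain ⟨n, hn, hn'⟩ := mem_iUnion₂.1 (hF (P.f_mem_orb (k + K) z))
  have h1 : n.natAbs ≤ K := hK (Finset.mem_coe.2 (Finset.mem_image_of_mem _ hn))
  refine ⟨(n + K).toNat, by omega, ?_⟩
  have h2 : k + ((n + K).toNat : ℤ) = n + (k + K) := by omega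
  rw [h2, P.add]
  exact hn'

/-- The factor step. -/
theorem good_residual_factor [Finite ι] {A : Act ℤ X} {B : Act ℤ Y} {π : X → Y}
    (h : A.Hom B π) (hs : Function.Surjective π) (hmin : ∀ x y, y ∈ A.orb x)
    (c : ι → ℤ) (hA : A.Good c ∈ residual X) : B.Good c ∈ residual Y := by
  classical
  have _ := Fintype.ofFinite ι
  set Q := B.prodPow c with hQ
  let D : ℕ → ℕ → (ι → Y) → Set (ι → Y) := fun k N z =>
    ⋃ j ∈ Finset.range (N + 1), {v | dist (Q.f (j : ℕ) v) z ≤ 1 / (k + 1)}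
  let F : ℕ → ℕ → Set Y := fun k N => {y | ∀ n : ℤ, Q.f n (fun _ => y) ∈ D k N (fun _ => y)}
  have hdiag : Continuous fun (y : Y) (_ : ι) => y := continuous_pi fun _ => continuous_id
  have hDc : ∀ k N z, IsClosed (D k N z) := fun k N z =>
    isClosed_biUnion_finset fun j _ =>
      isClosed_le ((Q.cont _).dist continuous_const) continuous_const
  have hFc : ∀ k N, IsClosed (F k N) := by
    intro k N
    have : F k N = ⋂ n : ℤ, ⋃ j ∈ Finset.range (N + 1),
        {y | dist (Q.f (j : ℕ) (Q.f n (fun _ => y))) (fun _ => y) ≤ 1 / (k + 1)} := by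
      ext y; simp [F, D]
    rw [this]
    exact isClosed_iInter fun n => isClosed_biUnion_finset fun j _ =>
      isClosed_le (((Q.cont _).comp ((Q.cont _).comp hdiag)).dist hdiag) continuous_const
  have hcover : ∀ k, ∀ y ∈ B.Good c, ∃ N, y ∈ F k N := by
    intro k y hy
    obtain ⟨N, hN⟩ := MinPt.syndetic hy (Metric.isOpen_ball (x := fun _ => y) (ε := 1 / (k + 1)))
      (Metric.mem_ball_self Nat.one_div_pos_of_nat)
    refine ⟨N, fun n => ?_⟩
    obtain ⟨j, hj, hj'⟩ := hN n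
    refine mem_iUnion₂.2 ⟨j, Finset.mem_range.2 (by omega), ?_⟩
    change dist (Q.f (j : ℕ) (Q.f n _)) _ ≤ _
    rw [← Q.add, add_comm]
    exact (Metric.mem_ball.1 hj').le
  have hback : ∀ y, (∀ k, ∃ N, y ∈ F k N) → y ∈ B.Good c := by
    intro y hy w hw
    apply (Q.isClosed_orb w).closure_subset
    rw [Metric.mem_closure_iff]
    intro ε hε
    obtain ⟨k, hk⟩ := exists_nat_one_div_lt hε
    obtain ⟨N, hN⟩ := hy k
    have h1 : Q.orb (fun _ => y) ⊆ D k N (fun _ => y) := by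
      apply closure_minimal _ (hDc _ _ _)
      rintro _ ⟨n, rfl⟩
      exact hN n
    obtain ⟨j, _, hj⟩ := mem_iUnion₂.1 (h1 hw)
    refine ⟨_, Q.f_mem_orb (j : ℕ) w, ?_⟩
    rw [dist_comm]
    exact lt_of_le_of_lt hj hk
  obtain ⟨t, htA, htG, htd⟩ := mem_residual.1 hA
  have hk : ∀ k, ⋃ N, interior (F k N) ∈ residual Y := by
    intro k
    apply residual_of_dense_open (isOpen_iUnion fun N => isOpen_interior)
    have hd : Dense (⋃ N, interior (π ⁻¹' F k N)) := by
      apply htG.dense_iUnion_interior_of_closed htd (fun N => (hFc k N).preimage h.1)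
      intro x hx
      obtain ⟨N, hN⟩ := hcover k (π x) ((h.prodPow c).minPt (htA hx))
      exact mem_iUnion.2 ⟨N, hN⟩
    rw [dense_iff_inter_open]
    rintro V hV ⟨y, hy⟩
    obtain ⟨x, rfl⟩ := hs y
    obtain ⟨x', hx'1, hx'2⟩ := dense_iff_inter_open.1 hd _ (hV.preimage h.1) ⟨x, hy⟩
    obtain ⟨N, hN⟩ := mem_iUnion.1 hx'2
    obtain ⟨y', hy'⟩ := semiopen h hs hmin ((hV.preimage h.1).inter isOpen_interior)
      ⟨x', hx'1, hN⟩
    refine ⟨y', ?_, mem_iUnion.2 ⟨N, ?_⟩⟩
    · obtain ⟨x'', hx'', rfl⟩ := interior_subset hy'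
      exact hx''.1
    · apply interior_mono _ hy'
      rintro _ ⟨x'', hx'', rfl⟩
      exact interior_subset (s := π ⁻¹' F k N) hx''.2
  filter_upwards [countable_iInter_mem.2 hk] with y hy
  apply hback
  intro k
  obtain ⟨N, hN⟩ := mem_iUnion.1 (mem_iInter.1 hy k)
  exact ⟨N, interior_subset hN⟩

end Act

end Pool.Agent.Lib.MP_76db73_an
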