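import Pool.Agent.Lib.MP_76db73_an.Defs
import Pool.Agent.Lib.MP_76db73_an.Steps

/-!
Transfinite induction along a PI tower.
-/

namespace Pool.Agent.Lib.MP_76db73_an

open Set Topology Filter

universe u v

/-- The action of the integers by powers of a homeomorphism. -/
def ofHomeo {Z : Type*} [TopologicalSpace Z] (S : Z ≃ₜ Z) : Act ℤ Z where
  f n z := (S ^ n) z
  cont n := (S ^ n).continuous
  zero z := by simp
  add g h z := by rw [zpow_add, Homeomorph.mul_apply]

theorem semiconj_zpow {Z W : Type*} [TopologicalSpace Z] [TopologicalSpace W] {S : Z ≃ₜ Z}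
    {R : W ≃ₜ W} {ρ : Z → W} (h : ∀ z, ρ (S z) = R (ρ z)) (n : ℤ) :
    ∀ z, ρ ((S ^ n) z) = (R ^ n) (ρ z) := by
  have h' : ∀ z, ρ (S⁻¹ z) = R⁻¹ (ρ z) := by
    intro z
    have := h (S⁻¹ z)
    simp only [Homeomorph.inv_apply, Homeomorph.apply_symm_apply] at this ⊢
    rw [this, Homeomorph.symm_apply_apply]
  induction n using Int.induction_on with
  | zero => intro z; simp
  | succ n ih =>
    intro z
    rw [zpow_add_one, zpow_add_one, Homeomorph.mul_apply, Homeomorph.mul_apply, ih, h]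
  | pred n ih =>
    intro z
    rw [zpow_sub_one, zpow_sub_one, Homeomorph.mul_apply, Homeomorph.mul_apply, ih, h']

theorem IsFactorMap.hom {A B : TDS.{u}} {p : A.X → B.X} (h : IsFactorMap A B p) :
    (ofHomeo A.T).Hom (ofHomeo B.T) p :=
  ⟨h.1, fun n z => semiconj_zpow h.2.2 n z⟩

theorem TDS.IsMinimal.mem_orb {A : TDS.{u}} (h : A.IsMinimal) (x y : A.X) :
    y ∈ (ofHomeo A.T).orb x := by
  have : (ofHomeo A.T).orb x = univ := h.2 x
  rw [this]
  trivial

theorem IsEquicontinuousExt.distal {A B : TDS.{u}} {p : A.X → B.X}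
    (hf : IsFactorMap A B p) (h : IsEquicontinuousExt A B p) (x x' : A.X) (he : p x = p x')
    (hp : ∀ ε > 0, ∃ n : ℤ, dist ((ofHomeo A.T).f n x) ((ofHomeo A.T).f n x') < ε) : x = x' := by
  apply eq_of_forall_dist_le
  intro ε hε
  obtain ⟨δ, hδ, hδ'⟩ := h ε hε
  obtain ⟨n, hn⟩ := hp δ hδ
  have h1 := hδ' _ _ (by rw [hf.hom.2, hf.hom.2, he]) hn (-n)
  change dist ((ofHomeo A.T).f (-n) ((ofHomeo A.T).f n x))
    ((ofHomeo A.T).f (-n) ((ofHomeo A.T).f n x')) < ε at h1
  rw [← Act.add, ← Act.add, neg_add_cancel, Act.zero, Act.zero] at h1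
  exact h1.le

theorem PITower.good_residual {η : Ordinal.{v}} (t : PITower.{u, v} η) {ι : Type} [Finite ι]
    {c : ι → ℤ} (hc : ∀ i, c i ≠ 0) (l : Ordinal.{v}) :
    l ≤ η → (ofHomeo (t.sys l).T).Good c ∈ residual (t.sys l).X := by
  induction l using Ordinal.limitRecOn with
  | zero =>
    intro _
    apply univ_mem'
    intro x w _
    have : w = fun _ => x := funext fun i => t.point _ _
    rw [this]
    exact Act.self_mem_orb _ _
  | add_one l ih =>
    intro hl
    have hn : l ≤ l + 1 := le_self_add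
    have hf := t.factor (l + 1) l hn hl
    rcases t.step l hn hl with hs | hs
    · exact Act.good_residual_prox hf.hom hf.2.1 (t.minimal _ hl).mem_orb hs hc
        (ih (hn.trans hl))
    · exact Act.good_residual_distal hf.hom hf.2.1 (t.minimal _ hl).mem_orb (hs.distal hf) c
        (ih (hn.trans hl))
  | limit l hlim ih =>
    intro hl
    have : Nonempty (Iio l) := ⟨⟨0, hlim.bot_lt⟩⟩
    refine Act.good_residual_limit (κ := Iio l) (Z := fun k => (t.sys k).X)
      (B := fun k => ofHomeo (t.sys k).T) (π := fun k => t.proj l k k.2.le hl)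
      (fun k => (t.factor l k k.2.le hl).hom) (fun k => (t.factor l k k.2.le hl).2.1)
      (t.minimal _ hl).mem_orb ?_ ?_ c (fun k => ih k k.2 (k.2.le.trans hl))
    · intro k m hkm x x' he
      rw [← t.proj_proj l m k hkm m.2.le hl, ← t.proj_proj l m k hkm m.2.le hl, he]
    · intro x x' he
      obtain ⟨y, _, hy⟩ := t.limit l hl hlim (fun n hn => t.proj l n hn.le hl x)
        (fun n m hm hn => t.proj_proj l n m hm hn.le hl x)
      exact (hy x fun _ _ => rfl).trans (hy x' fun n hn => (he ⟨n, hn⟩).symm).symm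

theorem tau_zpow {X : Type*} [TopologicalSpace X] (T : X ≃ₜ X) (d : ℕ) (n : ℤ) (w : Fin d → X) :
    (tau T d ^ n) w = ((ofHomeo T).prodPow fun i : Fin d => (i.val + 1 : ℤ)).f n w := by
  funext i
  have := semiconj_zpow (S := tau T d) (R := T ^ (i.val + 1)) (ρ := fun w => w i)
    (fun _ => rfl) n w
  rw [this]
  change _ = (T ^ ((i.val + 1 : ℤ) * n)) (w i)
  rw [zpow_mul]
  norm_cast

theorem orbitClosure_tau {X : Type*} [TopologicalSpace X] (T : X ≃ₜ X) (d : ℕ) (w : Fin d → X) :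
    orbitClosure (tau T d) w = ((ofHomeo T).prodPow fun i : Fin d => (i.val + 1 : ℤ)).orb w := by
  unfold orbitClosure Act.orb
  simp only [tau_zpow]

theorem TDS.IsPI.good_residual {A : TDS.{u}} (hA : TDS.IsPI.{u, v} A) (d : ℕ) :
    (ofHomeo A.T).Good (fun i : Fin d => (i.val + 1 : ℤ)) ∈ residual A.X := by
  obtain ⟨_, B, p, ⟨η, t, rfl⟩, hf, _⟩ := hA
  exact Act.good_residual_factor hf.hom hf.2.1 (t.minimal η le_rfl).mem_orb _
    (t.good_residual (fun i => by omega) η le_rfl)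

theorem good_imp {A : TDS.{u}} {d : ℕ} {x : A.X}
    (hx : x ∈ (ofHomeo A.T).Good (fun i : Fin d => (i.val + 1 : ℤ))) :
    IsMinimalPoint (tau A.T d) (fun _ => x) ∧ PsRecurrent (tau A.T d) (fun _ => x) := by
  constructor
  · intro w hw
    rw [orbitClosure_tau] at hw
    rw [orbitClosure_tau, orbitClosure_tau]
    exact Act.MinPt.orb_eq hx hw
  · intro V hV hxV
    obtain ⟨N, hN⟩ := Act.MinPt.syndetic hx hV hxV
    refine ⟨N, fun L => ⟨0, fun k _ => ?_⟩⟩
    obtain ⟨j, hj, hj'⟩ := hN k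
    refine ⟨j, hj, ?_⟩
    rw [Set.mem_ofPred_eq, tau_zpow]
    exact hj'

end Pool.Agent.Lib.MP_76db73_an
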